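import Pool.Agent.H83.G.Chain
import Pool.Agent.H22.G4.LWJ
import Pool.Agent.H86.FP.FLB
import Pool.Agent.H4.FP.FLM
import Pool.Agent.H68.FP.KG
import Pool.Agent.H89.FP.KSA
import Pool.Agent.H42.FPL.KST
import Pool.Agent.H74.FP.LCT
import Pool.Agent.H14.FP.LIN
import Pool.Agent.H19.FP.LW4
import Pool.Agent.H68.FP.MKA
import Pool.Agent.H14.FP.MKC
import Pool.Agent.H19.FP.MKI
import Pool.Agent.H19.FP.MKS
import Pool.Agent.H42.FPL.TUB

/-! MP_ee74d2_an, dimension 3 (`m = 2`), multilinear Kakeya with polynomial constants and the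
counting of four-stars: the chain. -/

set_option autoImplicit false

namespace Pool.Agent.H82.FP.Chain

open Pool.Agent.H83.G Pool.Agent.H83.G.Chain Pool.Agent.H82.FP

theorem f_LW4 : T_LW4 := Pool.Agent.H19.FP.pf_LW4

theorem f_MKS : T_MKS := Pool.Agent.H19.FP.pf_MKS f_LW4

theorem f_MKI : T_MKI := Pool.Agent.H19.FP.I.pf_MKI f_MKS

theorem f_LIN : T_LIN := Pool.Agent.H14.FP.pf_LIN

theorem f_MKC : T_MKC := Pool.Agent.H14.FP.pf_MKC f_MKI f_LIN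

theorem f_MKA : T_MKA := Pool.Agent.H68.FP.pf_MKA f_MKC Pool.Agent.H22.G4.pf_IN1

theorem f_LCT : T_LCT := Pool.Agent.H74.FP.LCT.pf_LCT m_LOA m_LOI m_SCL m_WT1 m_SCH m_LCN

theorem f_TUB : T_TUB := Pool.Agent.H42.FPL.pf_TUB

theorem f_FLM : T_FLM := Pool.Agent.H4.FP.pf_FLM f_MKA f_LCT f_TUB m_PUS m_PLN m_CPS m_SCH

theorem f_FLB : T_FLB := Pool.Agent.H86.FP.pf_FLB m_CBN

theorem f_KG : T_KG := Pool.Agent.H68.FP.pf_KG

theorem f_KSA : T_KSA := Pool.Agent.H89.FP.pf_KSA f_KG Pool.Agent.H22.G.pf_HG1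
  Pool.Agent.H22.G.pf_HG2

theorem f_KST : T_KST := Pool.Agent.H42.FPL.pf_KST f_KSA m_CBN

end Pool.Agent.H82.FP.Chain
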