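import Pool.Agent.H82.FP.Chain0
import Pool.Agent.H13.FP.FLS2
import Pool.Agent.H51.FP.FLA
import Pool.Agent.H99.FP.FLP

/-! MP_ee74d2_an, dimension 3 (`m = 2`): four-linear restriction for the light cone with polynomial
dependence on the transversality, and the counting of four-stars: all proved. -/

set_option autoImplicit false

namespace Pool.Agent.H82.FP.Chain

open Pool.Agent.H83.G Pool.Agent.H83.G.Chain Pool.Agent.H82.FP

theorem f_FLA2 : T_FLA2 :=
  Pool.Agent.H51.FP.pf_FLA m_LO m_MOD m_PUS m_LWX m_SCH m_PLN m_CPS m_LOA m_CBN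

theorem f_FLS2 : T_FLS2 := Pool.Agent.H13.FP.pf_FLS2 f_FLA2 f_FLM m_PUX

theorem f_FLP2 : T_FLP2 := Pool.Agent.H99.FP.pf_FLP f_FLS2 f_FLB

end Pool.Agent.H82.FP.Chain
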