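import Pool.Agent.H22.G4.TargetsJ
import Pool.Agent.H22.G.TargetsH
import Pool.Agent.H84.KL.Targets

/-!
MP_ee74d2_an, dimension 3 (`m = 2`): four-linear restriction for the light cone with polynomial
dependence on the transversality (FLP), and the counting of four-stars (KST).

FLP is proved by multilinear Kakeya for lines (Guth's short proof: Loomis-Whitney in cubes, then an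
affine map) and the induction `R → R^{1/2}` of Bennett, Carbery and Tao.
-/

set_option autoImplicit false

namespace Pool.Agent.H82.FP

open MeasureTheory Set
open Pool.Agent.H83.G
open Pool.Agent.H22.G4 (nv Ind)
open Pool.Agent.H22.G (co)
open scoped ENNReal NNReal RealInnerProductSpace

/-! ### multilinear Kakeya for lines close to the axes -/

/-- `ℝ^4` with the sup norm -/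
abbrev V4 := Fin 4 → ℝ

/-- lines: a point and a direction -/
abbrev Ln := V4 × V4

/-- half open cube -/
def Qc (c : V4) (ρ : ℝ) : Set V4 := {x | ∀ j, c j ≤ x j ∧ x j < c j + ρ}

/-- the lines `ℓ` transversal to the hyperplanes `x i = const` such that `x` is in the tube of
radius `W` around `ℓ` -/
def TU (W : ℝ) (i : Fin 4) (x : V4) : Set Ln := {ℓ | ‖x - ℓ.1 - (x i - ℓ.1 i) • ℓ.2‖ ≤ W}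

/-- the lines of the family `i` are close to the `i`-th axis -/
def NAx (δ : ℝ) (μ : Fin 4 → Measure Ln) : Prop :=
  ∀ i, ∀ᵐ ℓ ∂(μ i), ℓ.2 i = 1 ∧ ∀ j, j ≠ i → |ℓ.2 j| ≤ δ

/-- LW4: Loomis-Whitney -/
def T_LW4 : Prop := ∃ C : ℝ, 0 < C ∧ ∀ f : Fin 4 → V4 → ℝ≥0∞, (∀ i, Measurable (f i)) →
  (∀ i (a : V4) (t : ℝ), f i (Function.update a i t) = f i a) →
  ∫⁻ a, ∏ i, f i a ^ (1 / 3 : ℝ) ≤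
    ENNReal.ofReal C * ∏ i, (∫⁻ a in {a : V4 | 0 ≤ a i ∧ a i < 1}, f i a) ^ (1 / 3 : ℝ)

/-- MKS: one step of multilinear Kakeya -/
def T_MKS : Prop := ∃ C : ℝ, 1 ≤ C ∧ ∀ (δ W : ℝ) (c : V4) (μ : Fin 4 → Measure Ln)
  [∀ i, IsFiniteMeasure (μ i)], 0 < δ → δ ≤ 1 → 0 < W → NAx δ μ →
  ∫⁻ x in Qc c (W / δ), ∏ i, μ i (TU W i x) ^ (1 / 3 : ℝ) ≤
    ENNReal.ofReal (C * δ ^ 4) *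
      ∫⁻ x in Qc c (W / δ), ∏ i, μ i (TU (5 * W / δ) i x) ^ (1 / 3 : ℝ)

/-- MKI: multilinear Kakeya for lines close to the axes -/
def T_MKI : Prop := ∀ ε : ℝ, 0 < ε → ∃ δ C : ℝ, 0 < δ ∧ δ ≤ 1 ∧ 0 < C ∧
  ∀ (S : ℝ) (c : V4) (μ : Fin 4 → Measure Ln) [∀ i, IsFiniteMeasure (μ i)], 1 ≤ S → NAx δ μ →
  ∫⁻ x in Qc c S, ∏ i, μ i (TU 1 i x) ^ (1 / 3 : ℝ) ≤
    ENNReal.ofReal (C * S ^ ε) * ∏ i, μ i univ ^ (1 / 3 : ℝ)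

/-! ### multilinear Kakeya for light rays -/

/-- direction of the light rays of the cap `η` -/
noncomputable def Dv {m : ℕ} (η : E m) : Z m := (‖η‖ ^ 2, (-2 : ℝ) • η, 1)

/-- the light rays `p` (point, direction) such that `z` is in the tube of radius `W` around `p` -/
def TZ (W : ℝ) (z : Z 2) : Set (Z 2 × E 2) :=
  {p | ‖z - p.1 - (z.2.2 - p.1.2.2) • Dv p.2‖ ≤ W}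

/-- LIN: four independent directions are mapped to the axes -/
def T_LIN : Prop := ∃ C : ℝ, 1 ≤ C ∧ ∀ (K : ℝ) (c : Fin 4 → E 2), 1 ≤ K → (∀ i, ‖c i‖ ≤ 20) →
  Ind K⁻¹ c → ∃ A : Z 2 ≃L[ℝ] V4, (∀ i, A (Dv (c i)) = Pi.single i 1) ∧
  (∀ z, ‖A z‖ ≤ C * K * ‖z‖) ∧ (∀ x, ‖A.symm x‖ ≤ C * ‖x‖) ∧
  ∀ f : V4 → ℝ≥0∞, Measurable f → ∫⁻ z, f (A z) ≤ ENNReal.ofReal C * ∫⁻ x, f x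

/-- MKC: multilinear Kakeya for light rays in small caps -/
def T_MKC : Prop := ∀ ε : ℝ, 0 < ε → ∃ δ C E₁ : ℝ, 0 < δ ∧ δ ≤ 1 ∧ 0 < C ∧ 0 ≤ E₁ ∧
  ∀ (K N W : ℝ) (z₀ : Z 2) (c : Fin 4 → E 2) (ν : Fin 4 → Measure (Z 2 × E 2))
  [∀ i, IsFiniteMeasure (ν i)], 1 ≤ K → 1 ≤ N → 1 ≤ W → (∀ i, ‖c i‖ ≤ 20) → Ind K⁻¹ c →
  (∀ i, ∀ᵐ p ∂(ν i), ‖p.2 - c i‖ ≤ δ / K ^ 2) →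
  ∫⁻ z in {z | ‖z - z₀‖ ≤ N}, ∏ i, ν i (TZ W z) ^ (1 / 3 : ℝ) ≤
    ENNReal.ofReal (C * K ^ E₁ * W ^ E₁ * N ^ ε) * ∏ i, ν i univ ^ (1 / 3 : ℝ)

/-- MKA: multilinear Kakeya for light rays, caps of radius `1/(100 K)` -/
def T_MKA : Prop := ∀ ε : ℝ, 0 < ε → ∃ C E₁ : ℝ, 0 < C ∧ 0 ≤ E₁ ∧
  ∀ (K N W : ℝ) (z₀ : Z 2) (c : Fin 4 → E 2) (ν : Fin 4 → Measure (Z 2 × E 2))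
  [∀ i, IsFiniteMeasure (ν i)], 1 ≤ K → 1 ≤ N → 1 ≤ W → (∀ i, ‖c i‖ ≤ 12) → Ind K⁻¹ c →
  (∀ i, ∀ᵐ p ∂(ν i), ‖p.2 - c i‖ ≤ 1 / (100 * K)) →
  ∫⁻ z in {z | ‖z - z₀‖ ≤ N}, ∏ i, ν i (TZ W z) ^ (1 / 3 : ℝ) ≤
    ENNReal.ofReal (C * K ^ E₁ * W ^ E₁ * N ^ ε) * ∏ i, ν i univ ^ (1 / 3 : ℝ)

/-! ### four-linear restriction -/

/-- coordinates of the tubes of radius `s` and length `s²` in the direction `Dv η` -/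
noncomputable def Tu {m : ℕ} (η : E m) (s : ℝ) (z : Z m) : Z m :=
  (s⁻¹ * (z.1 + ⟪z.2.1, η⟫ + z.2.2 * ‖η‖ ^ 2), s⁻¹ • (z.2.1 + (2 * z.2.2) • η),
    (s⁻¹) ^ 2 * z.2.2)

/-- LCT: the energy of a plate in a ball of radius `s` is bounded by the energy in the tube -/
def T_LCT : Prop := ∀ (m N : ℕ) (D : ℝ), 1 ≤ D → ∃ (N' : ℕ) (C : ℝ), m + 3 ≤ N' ∧ 0 < C ∧
  ∀ (η : E m) (s : ℝ) (G : Z m → ℂ) (z : Z m), 1 ≤ s → ‖η‖ ≤ D → TC G →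
  (∀ ζ, G ζ ≠ 0 → 1 / 4 ≤ ζ.1 ∧ ζ.1 ≤ 8 ∧ ‖ζ.1⁻¹ • ζ.2.1 - η‖ ≤ D / s ∧
    |ζ.2.2 - ‖ζ.2.1‖ ^ 2 / ζ.1| ≤ D / s ^ 2) →
  ∫⁻ z', ‖TF G z'‖ₑ ^ 2 * ENNReal.ofReal (wt N' (s⁻¹ • (z - z'))) ≤
    ENNReal.ofReal (C / s) * ∫⁻ z', ‖TF G z'‖ₑ ^ 2 * ENNReal.ofReal (wt N (Tu η s (z - z')))

/-- TUB: the weight of a tube is dominated by dyadic tubes -/
def T_TUB : Prop := ∀ (N : ℕ) (D : ℝ), 1 ≤ D → ∃ C : ℝ, 1 ≤ C ∧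
  ∀ (η : E 2) (s : ℝ) (z z' : Z 2), 1 ≤ s → ‖η‖ ≤ D →
  ENNReal.ofReal (wt N (Tu η s (z - z'))) ≤
    ∑' l : ℕ, ENNReal.ofReal (C * ((2 : ℝ) ^ (N * l))⁻¹) *
      (TZ (C * 2 ^ l * s) z).indicator 1 ((z', η) : Z 2 × E 2)

/-- FLM: multilinear Kakeya for the energies of the caps of radius `1/s` -/
def T_FLM : Prop := ∀ (ε D : ℝ) (β : E 2 → ℂ), 0 < ε → 1 ≤ D → IsPU β →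
  ∃ (N : ℕ) (C E₁ : ℝ), 5 ≤ N ∧ 1 ≤ C ∧ 0 ≤ E₁ ∧
  ∀ (K s : ℝ) (c : Fin 4 → E 2) (G : Fin 4 → Z 2 → ℂ) (z₀ : Z 2), 1 ≤ K → 400 * K ≤ s →
  (∀ i, ‖c i‖ ≤ 12) → Ind K⁻¹ c → (∀ i, TC (G i)) →
  (∀ i ζ, G i ζ ≠ 0 → 1 / 4 ≤ ζ.1 ∧ ζ.1 ≤ 8 ∧ ‖ζ.1⁻¹ • ζ.2.1 - c i‖ ≤ 3 / (400 * K) ∧
    |ζ.2.2 - ‖ζ.2.1‖ ^ 2 / ζ.1| ≤ D / s ^ 2) →
  ∫⁻ z in {z | ‖z - z₀‖ ≤ 4 * s ^ 2}, ∏ i, (∑ k ∈ Ks 2 s⁻¹,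
    ∫⁻ z', ‖TP β (ctr s⁻¹ k) s⁻¹ (G i) z'‖ₑ ^ 2 *
      ENNReal.ofReal (wt N (s⁻¹ • (z - z')))) ^ (1 / 3 : ℝ) ≤
    ENNReal.ofReal (C * K ^ E₁ * s ^ ε * s ^ 4) *
      ∏ i, ENNReal.ofReal (s⁻¹ * ∫ ζ, ‖G i ζ‖ ^ 2) ^ (1 / 3 : ℝ)

/-- the four-linear restriction estimate at scale `R` with constant `B`, for caps of radius
`(1 + κ) σ` with centres `c i` -/
def FLst (D κ σ R B : ℝ) (c : Fin 4 → E 2) : Prop :=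
  ∀ (H : ℝ) (G : Fin 4 → Z 2 → ℂ) (z₀ : Z 2) (Y : Finset (Z 2)), 0 < H → (∀ i, TC (G i)) →
  (∀ i ζ, G i ζ ≠ 0 → 1 / 2 - κ ≤ ζ.1 ∧ ζ.1 ≤ 6 + κ ∧
    ‖ζ.1⁻¹ • ζ.2.1 - c i‖ ≤ (1 + κ) * σ ∧ |ζ.2.2 - ‖ζ.2.1‖ ^ 2 / ζ.1| ≤ D / R) →
  Sep Y → (∀ z ∈ Y, ‖z - z₀‖ ≤ R) → (∀ z ∈ Y, ∀ i, H ≤ ‖TF (G i) z‖) →
  (Y.card : ℝ) ≤ B * ∏ i, (R⁻¹ * (∫ ζ, ‖G i ζ‖ ^ 2) / H ^ 2) ^ (1 / 3 : ℝ)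

/-- FLB: the trivial bound -/
def T_FLB : Prop := ∀ D : ℝ, 1 ≤ D → ∃ C : ℝ, 1 ≤ C ∧ ∀ (κ σ R : ℝ) (c : Fin 4 → E 2), 0 ≤ κ →
  κ ≤ 1 / 4 → 0 < σ → σ ≤ 1 → 1 ≤ R → (∀ i, ‖c i‖ ≤ 12) → FLst D κ σ R (C * R ^ 4) c

/-- FLA: localization to balls of radius `s` -/
def T_FLA : Prop := ∃ D₀ : ℝ, 1 ≤ D₀ ∧ ∀ (D : ℝ) (N : ℕ) (β : E 2 → ℂ), D₀ ≤ D → 5 ≤ N →
  IsPU β → ∃ C : ℝ, 1 ≤ C ∧ ∀ (κ κ' σ s B H : ℝ) (c : Fin 4 → E 2) (G : Fin 4 → Z 2 → ℂ)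
  (z₀ : Z 2) (Y : Finset (Z 2)), 0 ≤ κ → 0 < κ' → κ + κ' ≤ 1 / 4 → 0 < σ → σ ≤ 1 →
  C ≤ s * (κ' * σ) → 0 ≤ B → (∀ i, ‖c i‖ ≤ 12) → FLst D (κ + κ') σ s B c → 0 < H →
  (∀ i, TC (G i)) →
  (∀ i ζ, G i ζ ≠ 0 → 1 / 2 - κ ≤ ζ.1 ∧ ζ.1 ≤ 6 + κ ∧
    ‖ζ.1⁻¹ • ζ.2.1 - c i‖ ≤ (1 + κ) * σ ∧ |ζ.2.2 - ‖ζ.2.1‖ ^ 2 / ζ.1| ≤ D / s ^ 2) →
  Sep Y → (∀ z ∈ Y, ‖z - z₀‖ ≤ s ^ 2) → (∀ z ∈ Y, ∀ i, H ≤ ‖TF (G i) z‖) →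
  ENNReal.ofReal Y.card ≤ ENNReal.ofReal (C * B * (s ^ 4)⁻¹) *
    ∫⁻ z in {z | ‖z - z₀‖ ≤ 4 * s ^ 2}, ∏ i, (ENNReal.ofReal (s⁻¹ * (H ^ 2)⁻¹) *
      ∑ k ∈ Ks 2 s⁻¹, ∫⁻ z', ‖TP β (ctr s⁻¹ k) s⁻¹ (G i) z'‖ₑ ^ 2 *
        ENNReal.ofReal (wt N (s⁻¹ • (z - z')))) ^ (1 / 3 : ℝ)

/-- FLS: the step `R^{1/2} → R` -/
def T_FLS : Prop := ∃ D₀ : ℝ, 1 ≤ D₀ ∧ ∀ (D ε : ℝ), D₀ ≤ D → 0 < ε →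
  ∃ C E₁ : ℝ, 1 ≤ C ∧ 0 ≤ E₁ ∧ ∀ (K κ κ' s B : ℝ) (c : Fin 4 → E 2), 1 ≤ K → 0 ≤ κ → 0 < κ' →
  κ + κ' ≤ 1 / 4 → C * K ≤ s * κ' → 0 ≤ B → (∀ i, ‖c i‖ ≤ 12) → Ind K⁻¹ c →
  FLst D (κ + κ') (1 / (200 * K)) s B c →
  FLst D κ (1 / (200 * K)) (s ^ 2) (C * K ^ E₁ * s ^ ε * B) c

/-- FLP: four-linear restriction with polynomial dependence on the transversality -/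
def T_FLP : Prop := ∀ (ε D : ℝ), 0 < ε → 1 ≤ D → ∃ C E₁ : ℝ, 1 ≤ C ∧ 0 ≤ E₁ ∧
  ∀ (K R H : ℝ) (c : Fin 4 → E 2) (G : Fin 4 → Z 2 → ℂ) (z₀ : Z 2) (Y : Finset (Z 2)), 1 ≤ K →
  1 ≤ R → 0 < H → (∀ i, ‖c i‖ ≤ 12) → Ind K⁻¹ c → (∀ i, TC (G i)) →
  (∀ i ζ, G i ζ ≠ 0 → 1 / 2 ≤ ζ.1 ∧ ζ.1 ≤ 6 ∧ ‖ζ.1⁻¹ • ζ.2.1 - c i‖ ≤ 1 / (200 * K) ∧
    |ζ.2.2 - ‖ζ.2.1‖ ^ 2 / ζ.1| ≤ D / R) →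
  Sep Y → (∀ z ∈ Y, ‖z - z₀‖ ≤ R) → (∀ z ∈ Y, ∀ i, H ≤ ‖TF (G i) z‖) →
  (Y.card : ℝ) ≤ C * K ^ E₁ * R ^ ε * ∏ i, (R⁻¹ * (∫ ζ, ‖G i ζ‖ ^ 2) / H ^ 2) ^ (1 / 3 : ℝ)

/-! ### four-stars -/

/-- KG: the vertex of a four-star is determined by the four ends, up to two choices -/
def T_KG : Prop := ∃ C E₁ : ℝ, 1 ≤ C ∧ 0 ≤ E₁ ∧ ∀ (P R : ℝ) (x : Fin 4 → Z 2) (S : Set (Z 2)),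
  1 ≤ P → 1 ≤ R →
  (∀ p ∈ S, ∃ (η : Fin 4 → E 2) (t : Fin 4 → ℝ), Ind P⁻¹ η ∧
    ∀ i, ‖η i‖ ≤ 3 ∧ R / P ≤ |t i| ∧ |t i| ≤ P * R ∧
      ‖p - x i - t i • Dv (η i)‖ ≤ P * R ^ (1 / 2 : ℝ)) →
  ∃ u : Fin 2 → Z 2, ∀ p ∈ S, ∃ j, ‖p - u j‖ ≤ C * P ^ E₁ * R ^ (1 / 2 : ℝ)

/-- KSA: the number of four-stars with given ends -/
def T_KSA : Prop := ∃ C E₁ : ℝ, 1 ≤ C ∧ 0 ≤ E₁ ∧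
  ∀ (R δ ε₀ P : ℝ) (q' : Fin 4 → Zi 2) (F : Finset (Zi 2 × (Fin 4 → Pk 2))), 1 ≤ R → 0 ≤ δ →
  0 ≤ ε₀ → 2 * δ + ε₀ ≤ 1 / 2 → 1 ≤ P →
  (∀ f ∈ F, (Ind P⁻¹ fun i => ctr (sR R) (f.2 i).1) ∧ ∀ i, ‖ctr (sR R) (f.2 i).1‖ ≤ 3 ∧
    Inc R δ (f.2 i) f.1 ∧ Inc R δ (f.2 i) (q' i) ∧
    R ^ (1 - ε₀) ≤ ‖co R f.1 - co R (q' i)‖ ∧ ‖co R f.1 - co R (q' i)‖ ≤ 10 * R) →
  (F.card : ℝ) ≤ C * P ^ E₁ * R ^ (E₁ * (δ + ε₀))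

open Classical in
/-- KST: four-stars with two-ended tubes -/
def T_KST : Prop := ∃ C E₁ : ℝ, 1 ≤ C ∧ 0 ≤ E₁ ∧
  ∀ (R δ ε₀ P : ℝ) (z₀ : Z 2) (TT : Fin 4 → Finset (Pk 2)) (QQ Q4 : Finset (Zi 2))
    (Pr : Fin 4 → Pk 2 → Zi 2 → Prop) (M : Fin 4 → ℝ) (k l : Fin 4 → ℕ), 1 ≤ R → 0 ≤ δ →
  0 ≤ ε₀ → 2 * δ + ε₀ ≤ 1 / 2 → 1 ≤ P →
  (∀ i, ∀ T ∈ TT i, ‖ctr (sR R) T.1‖ ≤ 3) →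
  (∀ T : Fin 4 → Pk 2, (∀ i, T i ∈ TT i) → Ind P⁻¹ fun i => ctr (sR R) (T i).1) →
  (∀ q ∈ QQ, ‖co R q - z₀‖ ≤ 4 * R) → Q4 ⊆ QQ → (∀ i, 0 ≤ M i) →
  (∀ i, ∀ q ∈ Q4, M i ≤
    (((TT i).filter fun T => Inc R δ T q ∧ Pr i T (bl R (R ^ (1 - ε₀)) q)).card : ℝ)) →
  (∀ i, ∀ T ∈ TT i, ∀ B : Zi 2, Pr i T B →
    2 ^ l i ≤ (QQ.filter fun q => bl R (R ^ (1 - ε₀)) q = B ∧ Inc R δ T q).card ∧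
    (QQ.filter fun q => bl R (R ^ (1 - ε₀)) q = B ∧ Inc R δ T q).card < 2 ^ (l i + 1)) →
  (∀ i, ∀ T ∈ TT i, ∀ B : Zi 2, Pr i T B →
    2 ^ k i ≤ ((QQ.image (bl R (R ^ (1 - ε₀)))).filter fun B' => Pr i T B').card ∧
    ((QQ.image (bl R (R ^ (1 - ε₀)))).filter fun B' => Pr i T B').card < 2 ^ (k i + 1)) →
  (∀ i, C ≤ (2 : ℝ) ^ k i) →
  (∀ i, (Q4.card : ℝ) * M i ≤ 4 * 2 ^ (l i + k i) * (TT i).card) ∧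
  (Q4.card : ℝ) * ∏ i, (M i * 2 ^ (l i + k i)) ≤
    C * P ^ E₁ * R ^ (E₁ * (δ + ε₀)) * (QQ.card : ℝ) ^ 4

end Pool.Agent.H82.FP
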