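import Pool.Agent.H82.FP.Targets

/-!
Corrected forms of FLA, FLS, FLP: the caps `Ks 2 s⁻¹` cover the ball of radius `3/2` only, so the
centres `c i` are taken in the ball of radius `7/5` (correction found by helper51).
-/

set_option autoImplicit false

namespace Pool.Agent.H82.FP

open MeasureTheory Set
open Pool.Agent.H83.G
open Pool.Agent.H22.G4 (nv Ind)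
open Pool.Agent.H22.G (co)
open scoped ENNReal NNReal RealInnerProductSpace

/-- FLA: localization to balls of radius `s` -/
def T_FLA2 : Prop := ∃ D₀ : ℝ, 1 ≤ D₀ ∧ ∀ (D : ℝ) (N : ℕ) (β : E 2 → ℂ), D₀ ≤ D → 5 ≤ N →
  IsPU β → ∃ C : ℝ, 1 ≤ C ∧ ∀ (κ κ' σ s B H : ℝ) (c : Fin 4 → E 2) (G : Fin 4 → Z 2 → ℂ)
  (z₀ : Z 2) (Y : Finset (Z 2)), 0 ≤ κ → 0 < κ' → κ + κ' ≤ 1 / 4 → 0 < σ → σ ≤ 1 / 20 →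
  C ≤ s * (κ' * σ) → 0 ≤ B → (∀ i, ‖c i‖ ≤ 7 / 5) → FLst D (κ + κ') σ s B c → 0 < H →
  (∀ i, TC (G i)) →
  (∀ i ζ, G i ζ ≠ 0 → 1 / 2 - κ ≤ ζ.1 ∧ ζ.1 ≤ 6 + κ ∧
    ‖ζ.1⁻¹ • ζ.2.1 - c i‖ ≤ (1 + κ) * σ ∧ |ζ.2.2 - ‖ζ.2.1‖ ^ 2 / ζ.1| ≤ D / s ^ 2) →
  Sep Y → (∀ z ∈ Y, ‖z - z₀‖ ≤ s ^ 2) → (∀ z ∈ Y, ∀ i, H ≤ ‖TF (G i) z‖) →
  ENNReal.ofReal Y.card ≤ ENNReal.ofReal (C * B * (s ^ 4)⁻¹) *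
    ∫⁻ z in {z | ‖z - z₀‖ ≤ 4 * s ^ 2}, ∏ i, (ENNReal.ofReal (s⁻¹ * (H ^ 2)⁻¹) *
      ∑ k ∈ Ks 2 s⁻¹, ∫⁻ z', ‖TP β (ctr s⁻¹ k) s⁻¹ (G i) z'‖ₑ ^ 2 *
        ENNReal.ofReal (wt N (s⁻¹ • (z - z')))) ^ (1 / 3 : ℝ)

/-- FLS: the step `R^{1/2} → R` -/
def T_FLS2 : Prop := ∃ D₀ : ℝ, 1 ≤ D₀ ∧ ∀ (D ε : ℝ), D₀ ≤ D → 0 < ε →
  ∃ C E₁ : ℝ, 1 ≤ C ∧ 0 ≤ E₁ ∧ ∀ (K κ κ' s B : ℝ) (c : Fin 4 → E 2), 1 ≤ K → 0 ≤ κ → 0 < κ' →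
  κ + κ' ≤ 1 / 4 → C * K ≤ s * κ' → 0 ≤ B → (∀ i, ‖c i‖ ≤ 7 / 5) → Ind K⁻¹ c →
  FLst D (κ + κ') (1 / (200 * K)) s B c →
  FLst D κ (1 / (200 * K)) (s ^ 2) (C * K ^ E₁ * s ^ ε * B) c

/-- FLP: four-linear restriction with polynomial dependence on the transversality -/
def T_FLP2 : Prop := ∀ (ε D : ℝ), 0 < ε → 1 ≤ D → ∃ C E₁ : ℝ, 1 ≤ C ∧ 0 ≤ E₁ ∧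
  ∀ (K R H : ℝ) (c : Fin 4 → E 2) (G : Fin 4 → Z 2 → ℂ) (z₀ : Z 2) (Y : Finset (Z 2)), 1 ≤ K →
  1 ≤ R → 0 < H → (∀ i, ‖c i‖ ≤ 7 / 5) → Ind K⁻¹ c → (∀ i, TC (G i)) →
  (∀ i ζ, G i ζ ≠ 0 → 1 / 2 ≤ ζ.1 ∧ ζ.1 ≤ 6 ∧ ‖ζ.1⁻¹ • ζ.2.1 - c i‖ ≤ 1 / (200 * K) ∧
    |ζ.2.2 - ‖ζ.2.1‖ ^ 2 / ζ.1| ≤ D / R) →
  Sep Y → (∀ z ∈ Y, ‖z - z₀‖ ≤ R) → (∀ z ∈ Y, ∀ i, H ≤ ‖TF (G i) z‖) →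
  (Y.card : ℝ) ≤ C * K ^ E₁ * R ^ ε * ∏ i, (R⁻¹ * (∫ ζ, ‖G i ζ‖ ^ 2) / H ^ 2) ^ (1 / 3 : ℝ)

end Pool.Agent.H82.FP
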